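import Mathlib

set_option autoImplicit false

/-!
# Tolerance graphs admit an efficient local representation

Adjacency in a tolerance graph is a fixed Boolean combination of comparisons between six real
numbers attached to `v` and six real numbers attached to `w` (`a`, `b`, `b - t`, `a + t`, `b - a`,
`t`). Replacing the real numbers by their ranks gives labels of `O(log n)` bits.
-/

namespace Pool.Agent.Results.MP_04ae81_co.ToleranceLabels

/-- The length of the intersection of the closed intervals `[a₁, b₁]` and `[a₂, b₂]`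
(it is `0` if they are disjoint). -/
noncomputable def interLength (a₁ b₁ a₂ b₂ : ℝ) : ℝ := max 0 (min b₁ b₂ - max a₁ a₂)

/-- `G` is a tolerance graph: there are closed intervals `[a v, b v]` and tolerances `t v > 0` such
that distinct `v, w` are adjacent exactly when the length of the intersection of their intervals is
at least `min (t v) (t w)`. -/
def IsToleranceGraph {V : Type} (G : SimpleGraph V) : Prop :=
  ∃ a b t : V → ℝ, (∀ v, a v ≤ b v) ∧ (∀ v, 0 < t v) ∧
    ∀ v w, v ≠ w → (G.Adj v w ↔ min (t v) (t w) ≤ interLength (a v) (b v) (a w) (b w))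

/-- The class `P` of finite graphs admits an efficient local representation `(A, k)`: `A` is
symmetric, `k` is positive and every member of `P` with `n` vertices has a labelling with labels in
`{1, …, n ^ k}` such that adjacency of distinct vertices is decided by applying `A` to their
labels. -/
def HasEfficientLocalRepresentation (P : ∀ (V : Type), SimpleGraph V → Prop) : Prop :=
  ∃ (A : ℕ → ℕ → Bool) (k : ℕ), (∀ x y, A x y = A y x) ∧ 0 < k ∧
    ∀ (V : Type) [Fintype V] (G : SimpleGraph V), P V G →
      ∃ l : V → ℕ, (∀ v, 1 ≤ l v ∧ l v ≤ Fintype.card V ^ k) ∧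
        ∀ v w, v ≠ w → (G.Adj v w ↔ A (l v) (l w) = true)

/-- Decoding of six numbers. -/
def dec (x : ℕ) : Fin 6 → ℕ :=
  ![(Nat.unpair (Nat.unpair (Nat.unpair (x - 1)).1).1).1,
    (Nat.unpair (Nat.unpair (Nat.unpair (x - 1)).1).1).2,
    (Nat.unpair (Nat.unpair (Nat.unpair (x - 1)).1).2).1,
    (Nat.unpair (Nat.unpair (Nat.unpair (x - 1)).1).2).2,
    (Nat.unpair (Nat.unpair (x - 1)).2).1,
    (Nat.unpair (Nat.unpair (x - 1)).2).2]

/-- Encoding of six numbers. -/
def enc (f : Fin 6 → ℕ) : ℕ :=
  Nat.pair (Nat.pair (Nat.pair (f 0) (f 1)) (Nat.pair (f 2) (f 3))) (Nat.pair (f 4) (f 5)) + 1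

lemma dec_enc (f : Fin 6 → ℕ) : dec (enc f) = f := by
  funext i
  unfold dec enc
  fin_cases i <;> simp

lemma pair_lt {x y M : ℕ} (hx : x < M) (hy : y < M) : Nat.pair x y < M ^ 2 := by
  calc Nat.pair x y < (max x y + 1) ^ 2 := Nat.pair_lt_max_add_one_sq x y
    _ ≤ M ^ 2 := Nat.pow_le_pow_left (by omega) 2

lemma enc_le (f : Fin 6 → ℕ) (M : ℕ) (hM : 1 ≤ M) (h : ∀ i, f i < M) : enc f ≤ M ^ 8 := by
  have h1 := pair_lt (h 0) (h 1)
  have h2 := pair_lt (h 2) (h 3)
  have h3 := pair_lt (h 4) (h 5)
  have h4 := pair_lt h1 h2
  have h5 : Nat.pair (f 4) (f 5) < (M ^ 2) ^ 2 := by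
    refine lt_of_lt_of_le h3 ?_
    calc M ^ 2 = M ^ 2 * 1 := (mul_one _).symm
      _ ≤ M ^ 2 * M ^ 2 := Nat.mul_le_mul_left _ (Nat.one_le_pow _ _ hM)
      _ = (M ^ 2) ^ 2 := (sq (M ^ 2)).symm
  have h6 := pair_lt h4 h5
  have h7 : ((M ^ 2) ^ 2) ^ 2 = M ^ 8 := by rw [← pow_mul, ← pow_mul]
  rw [← h7]
  exact Nat.succ_le_of_lt h6

/-- One half of the adjacency test. -/
def half (x y : Fin 6 → ℕ) : Prop := x 5 ≤ x 4 ∧ y 0 ≤ x 2 ∧ x 3 ≤ y 1 ∧ x 5 ≤ y 4

instance (x y : Fin 6 → ℕ) : Decidable (half x y) := by unfold half; infer_instance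

/-- The adjacency test. -/
def test (x y : ℕ) : Bool := decide (half (dec x) (dec y) ∨ half (dec y) (dec x))

lemma test_symm (x y : ℕ) : test x y = test y x := by
  unfold test
  exact decide_eq_decide.mpr or_comm

/-- The answer to the question is yes: the class of tolerance graphs admits an efficient local
representation. -/
theorem result : HasEfficientLocalRepresentation (fun _ G => IsToleranceGraph G) := by
  refine ⟨test, 32, test_symm, by norm_num, ?_⟩
  intro V _ G hG
  obtain ⟨a, b, t, hab, ht, hadj⟩ := hG
  rcases Nat.lt_or_ge (Fintype.card V) 2 with hn | hn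
  · have hs : Subsingleton V := Fintype.card_le_one_iff_subsingleton.mp (by omega)
    refine ⟨fun _ => 1, fun v => ⟨le_rfl, ?_⟩, fun v w hvw => absurd (Subsingleton.elim v w) hvw⟩
    exact Nat.one_le_pow _ _ (Fintype.card_pos_iff.mpr ⟨v⟩)
  · classical
    -- the six real numbers attached to a vertex
    let r : V → Fin 6 → ℝ := fun v => ![a v, b v, b v - t v, a v + t v, b v - a v, t v]
    let S : Finset ℝ := Finset.univ.image (fun p : V × Fin 6 => r p.1 p.2)
    have hS : ∀ v i, r v i ∈ S := fun v i => Finset.mem_image.mpr ⟨(v, i), Finset.mem_univ _, rfl⟩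
    let rk : ℝ → ℕ := fun x => (S.filter (fun y => y < x)).card
    have hrk : ∀ x ∈ S, ∀ y ∈ S, x ≤ y ↔ rk x ≤ rk y := by
      intro x hx y hy
      constructor
      · intro h
        apply Finset.card_le_card
        intro z hz
        rw [Finset.mem_filter] at hz ⊢
        exact ⟨hz.1, lt_of_lt_of_le hz.2 h⟩
      · intro h
        by_contra hxy
        push Not at hxy
        have : rk y < rk x := by
          apply Finset.card_lt_card
          rw [Finset.ssubset_iff_of_subset]
          · exact ⟨y, Finset.mem_filter.mpr ⟨hy, hxy⟩, fun h' =>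
              lt_irrefl _ (Finset.mem_filter.mp h').2⟩
          · intro z hz
            rw [Finset.mem_filter] at hz ⊢
            exact ⟨hz.1, lt_trans hz.2 hxy⟩
        omega
    have hlt : ∀ v i, rk (r v i) < 6 * Fintype.card V := by
      intro v i
      have h1 : rk (r v i) < S.card := by
        apply Finset.card_lt_card
        rw [Finset.ssubset_iff_of_subset (Finset.filter_subset _ _)]
        exact ⟨r v i, hS v i, fun h' => lt_irrefl _ (Finset.mem_filter.mp h').2⟩
      have h2 : S.card ≤ 6 * Fintype.card V := by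
        refine le_trans Finset.card_image_le ?_
        rw [Finset.card_univ, Fintype.card_prod, Fintype.card_fin]
        omega
      omega
    refine ⟨fun v => enc (fun i => rk (r v i)), fun v => ⟨?_, ?_⟩, ?_⟩
    · exact Nat.le_add_left 1 _
    · refine le_trans (enc_le _ (6 * Fintype.card V) (by omega) (fun i => hlt v i)) ?_
      have h1 : 6 * Fintype.card V ≤ Fintype.card V ^ 4 := by
        have : 8 ≤ Fintype.card V ^ 3 := by
          calc 8 = 2 ^ 3 := by norm_num
            _ ≤ _ := Nat.pow_le_pow_left hn 3
        have h1 : 1 ≤ 6 * Fintype.card V := by omega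
        calc 6 * Fintype.card V ≤ Fintype.card V ^ 3 * Fintype.card V :=
              Nat.mul_le_mul_right _ (le_trans (by norm_num) this)
          _ = Fintype.card V ^ 4 := by ring
      calc (6 * Fintype.card V) ^ 8 ≤ (Fintype.card V ^ 4) ^ 8 := Nat.pow_le_pow_left h1 8
        _ = Fintype.card V ^ 32 := by rw [← pow_mul]
    · intro v w hvw
      rw [hadj v w hvw]
      unfold test
      rw [decide_eq_true_iff, dec_enc, dec_enc]
      have key : ∀ v w : V, half (fun i => rk (r v i)) (fun i => rk (r w i)) ↔
          t v ≤ min (b v) (b w) - max (a v) (a w) := by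
        intro v w
        unfold half
        simp only
        rw [← hrk _ (hS v 5) _ (hS v 4), ← hrk _ (hS w 0) _ (hS v 2),
          ← hrk _ (hS v 3) _ (hS w 1), ← hrk _ (hS v 5) _ (hS w 4)]
        change (t v ≤ b v - a v ∧ a w ≤ b v - t v ∧ a v + t v ≤ b w ∧ t v ≤ b w - a w) ↔ _
        constructor
        · rintro ⟨h1, h2, h3, h4⟩
          rcases max_choice (a v) (a w) with h | h <;>
            rcases min_choice (b v) (b w) with h' | h' <;> rw [h, h'] <;> linarith
        · intro h1
          have h3 := le_max_left (a v) (a w)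
          have h4 := le_max_right (a v) (a w)
          have h5 := min_le_left (b v) (b w)
          have h6 := min_le_right (b v) (b w)
          refine ⟨by linarith, by linarith, by linarith, by linarith⟩
      rw [key v w, key w v]
      unfold interLength
      have ht1 := ht v
      have ht2 := ht w
      rw [min_comm (b w) (b v), max_comm (a w) (a v), le_max_iff, min_le_iff]
      constructor
      · rintro (h | h)
        · exfalso
          rcases h with h | h <;> linarith
        · rcases min_choice (t v) (t w) with h' | h'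
          · left; rwa [h'] at h
          · right; rwa [h'] at h
      · rintro (h | h)
        · right; exact le_trans (min_le_left _ _) h
        · right; exact le_trans (min_le_right _ _) h

end Pool.Agent.Results.MP_04ae81_co.ToleranceLabels
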